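import Mathlib

set_option autoImplicit false

namespace Pool.Agent.Results.MP_5c431f_gt.Chain

open Set Filter Topology

universe u

/-- Perfect map: continuous, closed, surjective, with compact fibres. -/
def IsPerfect {X Y : Type*} [TopologicalSpace X] [TopologicalSpace Y] (f : X → Y) : Prop :=
  Continuous f ∧ IsClosedMap f ∧ Function.Surjective f ∧ ∀ y, IsCompact (f ⁻¹' {y})

/-- `st(y, G)`: the union of the members of `G` that contain `y`. -/
def star {Y : Type*} (G : Set (Set Y)) (y : Y) : Set Y := ⋃₀ {U | U ∈ G ∧ y ∈ U}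

/-- Developable space. -/
def Developable (Y : Type*) [TopologicalSpace Y] : Prop :=
  ∃ G : ℕ → Set (Set Y), (∀ n, (∀ U ∈ G n, IsOpen U) ∧ ⋃₀ G n = univ) ∧
    ∀ y : Y, (𝓝 y).HasBasis (fun _ : ℕ => True) (fun n => star (G n) y)

/-! ### The space `X`: disjoint union of the intervals `[n,n+1]`, each with the cofinite topology -/

structure XT : Type where
  n : ℤ
  x : ℝ
  h : (n : ℝ) ≤ x ∧ x ≤ n + 1

def sl (C : Set XT) (n : ℤ) : Set ℝ := {x | ∃ h, XT.mk n x h ∈ C}

def closedX : Set (Set XT) := {C | ∀ n : ℤ, Icc (n : ℝ) (n + 1) ⊆ sl C n ∨ (sl C n).Finite}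

instance topX : TopologicalSpace XT :=
  TopologicalSpace.ofClosed closedX
    (by
      intro n
      right
      convert Set.finite_empty
      ext x
      constructor
      · rintro ⟨_, h⟩
        exact h
      · intro h
        exact h.elim)
    (by
      intro A hA n
      by_cases h : ∀ C ∈ A, Icc (n : ℝ) (n + 1) ⊆ sl C n
      · left
        intro x hx
        refine ⟨hx, ?_⟩
        intro C hC
        obtain ⟨_, h2⟩ := h C hC hx
        exact h2
      · right
        push Not at h
        obtain ⟨C, hC, hC2⟩ := h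
        have hf := (hA hC n).resolve_left hC2
        refine hf.subset ?_
        rintro x ⟨hx, hx2⟩
        exact ⟨hx, hx2 C hC⟩)
    (by
      intro A hA B hB n
      rcases hA n with h | h
      · left
        intro x hx
        obtain ⟨h1, h2⟩ := h hx
        exact ⟨h1, Or.inl h2⟩
      · rcases hB n with h' | h'
        · left
          intro x hx
          obtain ⟨h1, h2⟩ := h' hx
          exact ⟨h1, Or.inr h2⟩
        · right
          refine (h.union h').subset ?_
          rintro x ⟨hx, hx2⟩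
          rcases hx2 with hx2 | hx2
          · exact Or.inl ⟨hx, hx2⟩
          · exact Or.inr ⟨hx, hx2⟩)

theorem isClosedX_iff (C : Set XT) :
    IsClosed C ↔ ∀ n : ℤ, Icc (n : ℝ) (n + 1) ⊆ sl C n ∨ (sl C n).Finite := by
  rw [← isOpen_compl_iff]
  change Cᶜᶜ ∈ closedX ↔ _
  rw [compl_compl]
  rfl

/-! ### The space `Y`: the intervals `[n,n+1]` glued to a line -/

structure YT : Type where
  val : ℝ

def slY (F : Set YT) : Set ℝ := {x | YT.mk x ∈ F}

def closedY : Set (Set YT) :=
  {F | ∀ n : ℤ, Icc (n : ℝ) (n + 1) ⊆ slY F ∨ (slY F ∩ Icc (n : ℝ) (n + 1)).Finite}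

instance topY : TopologicalSpace YT :=
  TopologicalSpace.ofClosed closedY
    (by
      intro n
      right
      convert Set.finite_empty
      exact Set.empty_inter _)
    (by
      intro A hA n
      by_cases h : ∀ C ∈ A, Icc (n : ℝ) (n + 1) ⊆ slY C
      · left
        intro x hx C hC
        exact h C hC hx
      · right
        push Not at h
        obtain ⟨C, hC, hC2⟩ := h
        have hf := (hA hC n).resolve_left hC2
        refine hf.subset ?_
        rintro x ⟨hx, hx2⟩
        exact ⟨hx C hC, hx2⟩)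
    (by
      intro A hA B hB n
      rcases hA n with h | h
      · left
        intro x hx
        exact Or.inl (h hx)
      · rcases hB n with h' | h'
        · left
          intro x hx
          exact Or.inr (h' hx)
        · right
          refine (h.union h').subset ?_
          rintro x ⟨hx, hx2⟩
          rcases hx with hx | hx
          · exact Or.inl ⟨hx, hx2⟩
          · exact Or.inr ⟨hx, hx2⟩)

theorem isClosedY_iff (F : Set YT) :
    IsClosed F ↔ ∀ n : ℤ, Icc (n : ℝ) (n + 1) ⊆ slY F
      ∨ (slY F ∩ Icc (n : ℝ) (n + 1)).Finite := by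
  rw [← isOpen_compl_iff]
  change Fᶜᶜ ∈ closedY ↔ _
  rw [compl_compl]
  rfl

def fmap (p : XT) : YT := ⟨p.x⟩

def gmap (p : XT) : ℤ := p.n

theorem fmap_perfect : IsPerfect fmap := by
  refine ⟨?_, ?_, ?_, ?_⟩
  · rw [continuous_iff_isClosed]
    intro F hF
    rw [isClosedX_iff]
    intro n
    rcases (isClosedY_iff F).mp hF n with h | h
    · left
      intro x hx
      exact ⟨hx, h hx⟩
    · right
      refine h.subset ?_
      rintro x ⟨hx, hx2⟩
      exact ⟨hx2, hx⟩
  · intro C hC
    rw [isClosedY_iff]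
    intro n
    rcases (isClosedX_iff C).mp hC n with h | h
    · left
      intro x hx
      obtain ⟨h1, h2⟩ := h hx
      exact ⟨_, h2, rfl⟩
    · right
      have hfin : (sl C n ∪ {(n : ℝ), (n : ℝ) + 1}).Finite :=
        h.union (Set.toFinite _)
      refine hfin.subset ?_
      rintro x ⟨⟨⟨m, y, hmy⟩, hp, hpx⟩, hx⟩
      have hyx : y = x := congrArg YT.val hpx
      subst hyx
      rcases lt_trichotomy m n with hmn | hmn | hmn
      · right
        left
        have h1 : (m : ℝ) + 1 ≤ n := by exact_mod_cast hmn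
        have h2 := hmy.2
        try simp only at h2
        linarith [hx.1]
      · left
        subst hmn
        exact ⟨hx, hp⟩
      · right
        right
        have h1 : (n : ℝ) + 1 ≤ m := by exact_mod_cast hmn
        have h2 := hmy.1
        try simp only at h2
        have := hx.2
        simp only [mem_singleton_iff]
        linarith
  · rintro ⟨y'⟩
    exact ⟨⟨⌊y'⌋, y', Int.floor_le y', (Int.lt_floor_add_one y').le⟩, rfl⟩
  · rintro ⟨y'⟩
    apply Set.Finite.isCompact
    have hfin : (gmap '' (fmap ⁻¹' {⟨y'⟩})).Finite := by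
      refine (Set.finite_Icc (⌊y'⌋ - 1) ⌊y'⌋).subset ?_
      rintro m ⟨⟨m', z, hz⟩, hp, rfl⟩
      have hzy : z = y' := congrArg YT.val hp
      subst hzy
      constructor
      · have h2 := hz.2
        try simp only at h2
        have : (⌊z⌋ : ℝ) ≤ m' + 1 := (Int.floor_le z).trans h2
        have h3 : ⌊z⌋ ≤ m' + 1 := by exact_mod_cast this
        simp only [gmap]
        linarith
      · exact Int.le_floor.mpr hz.1
    refine Set.Finite.of_finite_image hfin ?_
    rintro ⟨m, z, hz⟩ hp ⟨m', z', hz'⟩ hp' hmm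
    have h1 : z = y' := congrArg YT.val hp
    have h2 : z' = y' := congrArg YT.val hp'
    have h3 : m = m' := hmm
    subst h1 h3
    subst h2
    rfl

theorem gmap_perfect : IsPerfect gmap := by
  refine ⟨?_, ?_, ?_, ?_⟩
  · rw [continuous_iff_isClosed]
    intro F _
    rw [isClosedX_iff]
    intro n
    by_cases hn : n ∈ F
    · left
      intro x hx
      exact ⟨hx, hn⟩
    · right
      convert Set.finite_empty
      ext x
      constructor
      · rintro ⟨_, h2⟩
        exact (hn h2).elim
      · intro h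
        exact h.elim
  · intro C _
    exact isClosed_discrete _
  · intro n
    exact ⟨⟨n, n, le_rfl, by simp⟩, rfl⟩
  · intro n
    rw [isCompact_iff_ultrafilter_le_nhds]
    intro U hU
    rw [le_principal_iff] at hU
    -- either some point has its singleton in U, or U contains all cofinite subsets
    by_cases hp : ∃ p : XT, ({p} : Set XT) ∈ (U : Filter XT)
    · obtain ⟨p, hp⟩ := hp
      have hpn : p ∈ gmap ⁻¹' {n} := by
        have := U.nonempty_of_mem (inter_mem hp hU)
        obtain ⟨q, hq1, hq2⟩ := this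
        rw [mem_singleton_iff] at hq1
        rw [← hq1]; exact hq2
      refine ⟨p, hpn, ?_⟩
      intro N hN
      exact mem_of_superset hp (singleton_subset_iff.mpr (mem_of_mem_nhds hN))
    · push Not at hp
      refine ⟨⟨n, n, le_rfl, by simp⟩, rfl, ?_⟩
      intro N hN
      obtain ⟨O, hON, hO, hpO⟩ := mem_nhds_iff.mp hN
      have hcl := (isClosedX_iff Oᶜ).mp hO.isClosed_compl n
      have hfin : (sl Oᶜ n).Finite := by
        rcases hcl with h | h
        · exfalso
          obtain ⟨h1, h2⟩ := h (show (n : ℝ) ∈ Icc (n : ℝ) (n + 1) from ⟨le_rfl, by linarith⟩)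
          exact h2 hpO
        · exact h
      have hfin2 : (Oᶜ ∩ gmap ⁻¹' {n}).Finite := by
        have : (Oᶜ ∩ gmap ⁻¹' {n}) ⊆ (fun p : XT => p.x) ⁻¹' (sl Oᶜ n) ∩ gmap ⁻¹' {n} := by
          rintro ⟨m, z, hz⟩ ⟨h1, h2⟩
          have hm : m = n := h2
          subst hm
          exact ⟨⟨hz, h1⟩, rfl⟩
        refine Set.Finite.subset ?_ this
        apply Set.Finite.of_finite_image (f := fun p : XT => p.x)
        · refine hfin.subset ?_
          rintro z ⟨p, ⟨hp1, _⟩, rfl⟩
          exact hp1
        · rintro ⟨m, z, hz⟩ ⟨_, h2⟩ ⟨m', z', hz'⟩ ⟨_, h2'⟩ h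
          have a1 : m = n := h2
          have a2 : m' = n := h2'
          have a3 : z = z' := h
          subst a1 a3
          subst a2
          rfl
      have hnot : (Oᶜ ∩ gmap ⁻¹' {n}) ∉ (U : Filter XT) := by
        intro hmem
        have := (Ultrafilter.finite_biUnion_mem_iff (f := U) hfin2
          (s := fun p : XT => ({p} : Set XT))).mp (by
            rw [Set.biUnion_of_singleton]; exact hmem)
        obtain ⟨p, _, hp2⟩ := this
        exact hp p hp2
      have hO2 : O ∈ (U : Filter XT) := by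
        by_contra hO3
        have h4 : Oᶜ ∈ (U : Filter XT) := Ultrafilter.compl_mem_iff_notMem.mpr hO3
        exact hnot (inter_mem h4 hU)
      exact mem_of_superset hO2 hON

theorem dev_int : Developable ℤ := by
  refine ⟨fun _ => Set.range (fun n : ℤ => ({n} : Set ℤ)), fun _ => ⟨fun U _ => isOpen_discrete U, ?_⟩, ?_⟩
  · ext x
    simp
  · intro y
    have : star (Set.range (fun n : ℤ => ({n} : Set ℤ))) y = {y} := by
      ext x
      constructor
      · rintro ⟨U, ⟨⟨m, rfl⟩, hy⟩, hx⟩
        have hy' : y = m := hy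
        have hx' : x = m := hx
        rw [hx', hy']
        rfl
      · intro hx
        exact ⟨{y}, ⟨⟨y, rfl⟩, rfl⟩, hx⟩
    simp only [this]
    rw [nhds_discrete, hasBasis_iff]
    intro t
    simp

theorem t1X : T1Space XT := by
  refine ⟨fun p => ?_⟩
  rw [isClosedX_iff]
  intro n
  right
  refine (Set.finite_singleton p.x).subset ?_
  rintro x ⟨hx, hx2⟩
  exact congrArg XT.x (mem_singleton_iff.mp hx2)

theorem singleton_closedY (y : YT) : IsClosed ({y} : Set YT) := by
  rw [isClosedY_iff]
  intro n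
  right
  refine (Set.finite_singleton y.val).subset ?_
  rintro x ⟨hx, hx2⟩
  exact congrArg YT.val (mem_singleton_iff.mp hx)

theorem notCompactY : ¬ IsCompact (univ : Set YT) := by
  intro hc
  let V : ℕ → Set YT := fun N => {y : YT | (N : ℝ) ≤ y.val}ᶜ
  have hV : ∀ N, IsOpen (V N) := by
    intro N
    rw [← isClosed_compl_iff]
    simp only [V, compl_compl]
    rw [isClosedY_iff]
    intro n
    rcases le_or_gt (N : ℤ) n with h | h
    · left
      intro x hx
      have h1 : (N : ℝ) ≤ n := by exact_mod_cast h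
      exact h1.trans hx.1
    · right
      refine (Set.finite_singleton ((n : ℝ) + 1)).subset ?_
      rintro x ⟨hx, hx2⟩
      have h1 : (n : ℝ) + 1 ≤ N := by exact_mod_cast h
      have h2 : (N : ℝ) ≤ x := hx
      rw [mem_singleton_iff]
      linarith [hx2.2]
  have hcov : (univ : Set YT) ⊆ ⋃ N, V N := by
    intro y _
    obtain ⟨N, hN⟩ := exists_nat_gt y.val
    exact mem_iUnion.mpr ⟨N, not_le.mpr hN⟩
  have hdir : Directed (· ⊆ ·) V := by
    intro a b
    refine ⟨max a b, ?_, ?_⟩
    · intro y hy hy2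
      apply hy
      have : ((max a b : ℕ) : ℝ) ≤ y.val := hy2
      have h2 : (a : ℝ) ≤ ((max a b : ℕ) : ℝ) := by exact_mod_cast le_max_left a b
      exact h2.trans this
    · intro y hy hy2
      apply hy
      have : ((max a b : ℕ) : ℝ) ≤ y.val := hy2
      have h2 : (b : ℝ) ≤ ((max a b : ℕ) : ℝ) := by exact_mod_cast le_max_right a b
      exact h2.trans this
  obtain ⟨N, hN⟩ := hc.elim_directed_cover V hV hcov hdir
  have : (⟨(N : ℝ)⟩ : YT) ∈ V N := hN (mem_univ _)
  exact this (le_refl (N : ℝ))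

theorem noPerfect (E : Type u) [TopologicalSpace E] (hE : Developable E) (h : YT → E)
    (hh : IsPerfect h) : False := by
  obtain ⟨G, hG1, hG2⟩ := hE
  obtain ⟨hcont, hclosed, hsurj, hcomp⟩ := hh
  -- topological indistinguishability
  let R : E → E → Prop := fun e e' => ∀ U : Set E, IsOpen U → e ∈ U → e' ∈ U
  have hRtrans : ∀ a b c, R a b → R b c → R a c := fun a b c h1 h2 U hU ha =>
    h2 U hU (h1 U hU ha)
  have hstar_mem : ∀ n e, star (G n) e ∈ 𝓝 e := fun n e => (hG2 e).mem_of_mem trivial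
  have hRsymm : ∀ a b, R a b → R b a := by
    intro a b hab U hU hb
    obtain ⟨n, _, hn⟩ := (hG2 b).mem_iff.mp (hU.mem_nhds hb)
    apply hn
    -- b ∈ star (G n) a
    obtain ⟨O, hO1, hO2, hO3⟩ := mem_nhds_iff.mp (hstar_mem n a)
    have hb2 : b ∈ star (G n) a := hO1 (hab O hO2 hO3)
    obtain ⟨W, ⟨hW1, hW2⟩, hW3⟩ := hb2
    exact ⟨W, ⟨hW1, hW3⟩, hW2⟩
  -- on each interval
  have hint : ∀ n : ℤ, ∀ x y : ℝ, x ∈ Icc (n : ℝ) (n + 1) → y ∈ Icc (n : ℝ) (n + 1) →
      R (h ⟨x⟩) (h ⟨y⟩) := by
    intro n x y hx hy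
    have hcount : ∀ w : ℝ, w ∈ Icc (n : ℝ) (n + 1) →
        {z : ℝ | z ∈ Icc (n : ℝ) (n + 1) ∧ ¬ R (h ⟨w⟩) (h ⟨z⟩)}.Countable := by
      intro w hw
      have hsub : {z : ℝ | z ∈ Icc (n : ℝ) (n + 1) ∧ ¬ R (h ⟨w⟩) (h ⟨z⟩)}
          ⊆ ⋃ k : ℕ, {z : ℝ | z ∈ Icc (n : ℝ) (n + 1) ∧
            (⟨z⟩ : YT) ∉ h ⁻¹' (interior (star (G k) (h ⟨w⟩)))} := by
        rintro z ⟨hz1, hz2⟩
        by_contra hcon
        rw [mem_iUnion] at hcon
        push Not at hcon
        apply hz2
        intro U hU hwU
        obtain ⟨k, _, hk⟩ := (hG2 (h ⟨w⟩)).mem_iff.mp (hU.mem_nhds hwU)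
        have h3 := hcon k
        have h4 : (⟨z⟩ : YT) ∈ h ⁻¹' (interior (star (G k) (h ⟨w⟩))) := by
          by_contra h5
          exact h3 ⟨hz1, h5⟩
        exact hk (interior_subset h4)
      refine Set.Countable.mono hsub (Set.countable_iUnion (fun k => ?_))
      apply Set.Finite.countable
      have hcl : IsClosed (h ⁻¹' (interior (star (G k) (h ⟨w⟩))))ᶜ :=
        (isOpen_interior.preimage hcont).isClosed_compl
      rcases (isClosedY_iff _).mp hcl n with h1 | h1
      · exfalso
        have h2 := h1 hw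
        apply h2
        exact mem_interior_iff_mem_nhds.mpr (hstar_mem k _)
      · refine h1.subset ?_
        rintro z ⟨hz1, hz2⟩
        exact ⟨hz2, hz1⟩
    have hun : ¬ (Icc (n : ℝ) (n + 1)).Countable := by
      rw [Cardinal.Real.Icc_countable_iff]
      push Not
      linarith
    have : ∃ z ∈ Icc (n : ℝ) (n + 1), R (h ⟨x⟩) (h ⟨z⟩) ∧ R (h ⟨y⟩) (h ⟨z⟩) := by
      by_contra hcon
      push Not at hcon
      apply hun
      refine Set.Countable.mono ?_ ((hcount x hx).union (hcount y hy))
      intro z hz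
      by_cases hxz : R (h ⟨x⟩) (h ⟨z⟩)
      · exact Or.inr ⟨hz, hcon z hz hxz⟩
      · exact Or.inl ⟨hz, hxz⟩
    obtain ⟨z, _, h1, h2⟩ := this
    exact hRtrans _ _ _ h1 (hRsymm _ _ h2)
  have hZ : ∀ n : ℤ, R (h ⟨0⟩) (h ⟨n⟩) := by
    intro n
    induction n using Int.induction_on with
    | zero =>
      intro U _ h0
      simpa using h0
    | succ i ih =>
      refine hRtrans _ _ _ ih ?_
      have := hint i i (i + 1) ⟨by simp, by simp⟩ ⟨by simp, by simp⟩
      simpa using this
    | pred i ih =>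
      refine hRtrans _ _ _ ih ?_
      have := hint (-(i : ℤ) - 1) (-(i : ℤ)) (-(i : ℤ) - 1) ⟨by push_cast; linarith, by push_cast; linarith⟩
        ⟨by push_cast; linarith, by push_cast; linarith⟩
      simpa using this
  have hall : ∀ y : ℝ, R (h ⟨0⟩) (h ⟨y⟩) := by
    intro y
    refine hRtrans _ _ _ (hZ ⌊y⌋) ?_
    exact hint ⌊y⌋ ⌊y⌋ y ⟨le_rfl, by linarith⟩ ⟨Int.floor_le y, (Int.lt_floor_add_one y).le⟩
  -- every point of E equals h 0
  have hcl0 : IsClosed (h '' {(⟨0⟩ : YT)}) := hclosed _ (singleton_closedY _)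
  rw [image_singleton] at hcl0
  have heq : ∀ y : YT, h y = h ⟨0⟩ := by
    intro y
    by_contra hne
    have h1 : R (h y) (h ⟨0⟩) := hRsymm _ _ (hall y.val)
    have h2 := h1 _ hcl0.isOpen_compl (by simpa using hne)
    exact h2 rfl
  have hpre : h ⁻¹' {h ⟨0⟩} = univ := by
    ext y
    simp [heq y]
  have := hcomp (h ⟨0⟩)
  rw [hpre] at this
  exact notCompactY this

/-- Q1 has a negative answer. -/
theorem result : ∃ (X D Y : Type) (_ : TopologicalSpace X) (_ : TopologicalSpace D)
    (_ : TopologicalSpace Y), T1Space X ∧ T1Space Y ∧ Developable D ∧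
    (∃ g : X → D, IsPerfect g) ∧ (∃ f : X → Y, IsPerfect f) ∧
    ∀ (E : Type u) [TopologicalSpace E], Developable E → ¬ ∃ h : Y → E, IsPerfect h :=
  ⟨XT, ℤ, YT, topX, inferInstance, topY, t1X, ⟨singleton_closedY⟩, dev_int,
    ⟨gmap, gmap_perfect⟩, ⟨fmap, fmap_perfect⟩, fun E _ hE ⟨h, hh⟩ => noPerfect E hE h hh⟩

end Pool.Agent.Results.MP_5c431f_gt.Chain
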